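import Mathlib

/-!
# L-contact graphs: definitions
-/

set_option autoImplicit false

namespace Pool.Agent.Lib.MP_d36e69_co

/-- An L-shape: the union of the horizontal segment from the bend `(cx, cy)` to `(ex, cy)` and of
the vertical segment from the bend to `(cx, ey)`, both of positive length. -/
structure LShape where
  /-- abscissa of the bend -/
  cx : ℝ
  /-- ordinate of the bend -/
  cy : ℝ
  /-- abscissa of the free end of the horizontal segment -/
  ex : ℝ
  /-- ordinate of the free end of the vertical segment -/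
  ey : ℝ
  hx : ex ≠ cx
  hy : ey ≠ cy

namespace LShape

/-- The bend. -/
def bend (s : LShape) : ℝ × ℝ := (s.cx, s.cy)

/-- The endpoint of the horizontal segment. -/
def hEnd (s : LShape) : ℝ × ℝ := (s.ex, s.cy)

/-- The endpoint of the vertical segment. -/
def vEnd (s : LShape) : ℝ × ℝ := (s.cx, s.ey)

/-- The set of points of an L-shape. -/
def carrier (s : LShape) : Set (ℝ × ℝ) := segment ℝ s.bend s.hEnd ∪ segment ℝ s.bend s.vEnd

/-- `p` is one of the two endpoints of `s`. -/
def IsEnd (s : LShape) (p : ℝ × ℝ) : Prop := p = s.hEnd ∨ p = s.vEnd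

/-- `p` is an endpoint of `s` and a point of `t` that is neither an endpoint nor the bend
of `t`. -/
def TouchesAt (s t : LShape) (p : ℝ × ℝ) : Prop :=
  s.IsEnd p ∧ p ∈ t.carrier ∧ ¬ t.IsEnd p ∧ p ≠ t.bend

/-- `p` is a contact point of `s` and `t`. -/
def ContactAt (s t : LShape) (p : ℝ × ℝ) : Prop := s.TouchesAt t p ∨ t.TouchesAt s p

end LShape

/-- `L` is a non-crossing family of L-shapes whose contact graph is `G`: every point shared by
two distinct shapes is a contact point, and two distinct vertices are adjacent iff their shapes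
make contact. -/
def IsLContactRep {V : Type} (G : SimpleGraph V) (L : V → LShape) : Prop :=
  (∀ u v, u ≠ v → ∀ p, p ∈ (L u).carrier → p ∈ (L v).carrier → (L u).ContactAt (L v) p) ∧
    (∀ u v, u ≠ v → (G.Adj u v ↔ ∃ p, (L u).ContactAt (L v) p))

/-- `G` is an L-contact graph. -/
def IsLContactGraph {V : Type} (G : SimpleGraph V) : Prop := ∃ L : V → LShape, IsLContactRep G L

/-- `pos` is a straight-line plane drawing of `G`: vertices are distinct points, a vertex lies on
the segment of an edge only if it is one of its ends, and the segments of two distinct edges meet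
only in the image of a common end. -/
def IsStraightLineDrawing {V : Type} (G : SimpleGraph V) (pos : V → ℝ × ℝ) : Prop :=
  Function.Injective pos ∧
    (∀ u v w, G.Adj u v → pos w ∈ segment ℝ (pos u) (pos v) → w = u ∨ w = v) ∧
    (∀ a b c d, G.Adj a b → G.Adj c d → s(a, b) ≠ s(c, d) →
      ∀ p, p ∈ segment ℝ (pos a) (pos b) → p ∈ segment ℝ (pos c) (pos d) →
        ∃ x, (x = a ∨ x = b) ∧ (x = c ∨ x = d) ∧ p = pos x)

/-- The condition `|E(W)| ≤ 2 |W| - 2` for every nonempty vertex set `W`. -/
def IsSparse22 {V : Type} (G : SimpleGraph V) : Prop :=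
  ∀ W : Finset V, W.Nonempty → {e ∈ G.edgeSet | ∀ x ∈ e, x ∈ W}.ncard + 2 ≤ 2 * W.card

end Pool.Agent.Lib.MP_d36e69_co
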