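import Pool.Agent.Lib.MP_d36e69_co.Region

/-!
# Four copies of `K₄` sharing a vertex, joined in a ring, have no L-contact representation
-/

set_option autoImplicit false

namespace Pool.Agent.Lib.MP_d36e69_co

open LShape

/-! ### Counting the used ends of a `K₄` -/

theorem used_ends {V : Type} {G : SimpleGraph V} {L : V → LShape} (hL : IsLContactRep G L)
    (v : V) (P : Fin 3 → V) (h0 : ∀ j, G.Adj v (P j)) (h1 : ∀ j k, j ≠ k → G.Adj (P j) (P k))
    (hfree : ∀ j, ¬ UH (L v) (L (P j)) ∧ ¬ UV (L v) (L (P j))) (j : Fin 3) :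
    (∃ w, (w = v ∨ ∃ k, w = P k) ∧ UH (L (P j)) (L w)) ∧
      (∃ w, (w = v ∨ ∃ k, w = P k) ∧ UV (L (P j)) (L w)) := by
  classical
  have hvP : ∀ j, v ≠ P j := fun j => (h0 j).ne
  have hPinj : ∀ j k, P j = P k → j = k := by
    intro j k hjk
    by_contra hne
    exact (h1 j k hne).ne hjk
  let T : Bool → V → V → Prop := fun b u w => if b then UH (L u) (L w) else UV (L u) (L w)
  have hTu : ∀ b u w w', T b u w → T b u w' → w = w' := by
    intro b u w w' k1 k2
    cases b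
    · exact UV_unique hL k1 k2
    · exact UH_unique hL k1 k2
  let Rel : Fin 3 ⊕ Fin 3 → Fin 3 → V → Prop := fun e k w =>
    match e with
    | Sum.inl j => k = j ∧ w = v
    | Sum.inr j => ∃ l, ((k = j + 1 ∧ l = j + 2) ∨ (k = j + 2 ∧ l = j + 1)) ∧ w = P l
  have hex : ∀ e : Fin 3 ⊕ Fin 3, ∃ (kb : Fin 3 × Bool) (w : V), T kb.2 (P kb.1) w ∧
      Rel e kb.1 w := by
    rintro (j | j)
    · rcases adj_touch hL (h0 j) with (h | h) | (h | h)
      · exact absurd h (hfree j).1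
      · exact absurd h (hfree j).2
      · exact ⟨(j, true), v, h, rfl, rfl⟩
      · exact ⟨(j, false), v, h, rfl, rfl⟩
    · have hne : (j + 1 : Fin 3) ≠ j + 2 := by revert j; decide
      rcases adj_touch hL (h1 _ _ hne) with (h | h) | (h | h)
      · exact ⟨(j + 1, true), P (j + 2), h, j + 2, Or.inl ⟨rfl, rfl⟩, rfl⟩
      · exact ⟨(j + 1, false), P (j + 2), h, j + 2, Or.inl ⟨rfl, rfl⟩, rfl⟩
      · exact ⟨(j + 2, true), P (j + 1), h, j + 1, Or.inr ⟨rfl, rfl⟩, rfl⟩
      · exact ⟨(j + 2, false), P (j + 1), h, j + 1, Or.inr ⟨rfl, rfl⟩, rfl⟩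
  choose f g hT hRel using hex
  have hinj : Function.Injective f := by
    intro e e' hee
    have k1 := hT e
    have k2 := hT e'
    rw [← hee] at k2
    have hg : g e = g e' := hTu _ _ _ _ k1 k2
    have r1 := hRel e
    have r2 := hRel e'
    rw [← hee, ← hg] at r2
    rcases e with j | j <;> rcases e' with j' | j'
    · have a1 : (f (Sum.inl j)).1 = j := r1.1
      have a2 : (f (Sum.inl j)).1 = j' := r2.1
      rw [← a1, ← a2]
    · exfalso
      obtain ⟨l, -, hl⟩ := r2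
      have a1 : g (Sum.inl j) = v := r1.2
      exact hvP l (a1.symm.trans hl)
    · exfalso
      obtain ⟨l, -, hl⟩ := r1
      have a1 : g (Sum.inr j) = v := r2.2
      exact hvP l (a1.symm.trans hl)
    · obtain ⟨l, hl1, hl2⟩ := r1
      obtain ⟨l', hl1', hl2'⟩ := r2
      have : l = l' := hPinj _ _ (hl2.symm.trans hl2')
      subst this
      have key : ∀ (j j' k l : Fin 3), ((k = j + 1 ∧ l = j + 2) ∨ (k = j + 2 ∧ l = j + 1)) →
          ((k = j' + 1 ∧ l = j' + 2) ∨ (k = j' + 2 ∧ l = j' + 1)) → j = j' := by decide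
      rw [key j j' _ l hl1 hl1']
  have hbij : Function.Bijective f := by
    rw [Fintype.bijective_iff_injective_and_card]
    exact ⟨hinj, by simp⟩
  have hout : ∀ (e : Fin 3 ⊕ Fin 3) (k : Fin 3) (w : V), Rel e k w → w = v ∨ ∃ k, w = P k := by
    rintro (e | e) k w hr
    · exact Or.inl hr.2
    · obtain ⟨l, -, hl⟩ := hr
      exact Or.inr ⟨l, hl⟩
  constructor
  · obtain ⟨e, he⟩ := hbij.2 (j, true)
    have k1 := hT e
    have k2 := hRel e
    rw [he] at k1 k2
    exact ⟨g e, hout e _ _ k2, k1⟩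
  · obtain ⟨e, he⟩ := hbij.2 (j, false)
    have k1 := hT e
    have k2 := hRel e
    rw [he] at k1 k2
    exact ⟨g e, hout e _ _ k2, k1⟩

/-! ### The graph -/

/-- Vertices: the common vertex `none`, the other three vertices `(i, 0), (i, 1), (i, 2)` of the
`i`-th copy of `K₄`, and the connector `(i, 3)` between the copies `i` and `i + 1`. -/
abbrev Vt : Type := Option (Fin 4 × Fin 4)

/-- Adjacency. -/
def adjB : Vt → Vt → Bool
  | none, none => false
  | none, some (_, j) => decide (j ≠ 3)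
  | some (_, j), none => decide (j ≠ 3)
  | some (i, j), some (i', j') =>
    decide ((i = i' ∧ j ≠ j' ∧ j ≠ 3 ∧ j' ≠ 3) ∨ (i = i' ∧ j = 3 ∧ j' = 1) ∨
      (i = i' ∧ j = 1 ∧ j' = 3) ∨ (j = 3 ∧ j' = 0 ∧ i' = i + 1) ∨ (j = 0 ∧ j' = 3 ∧ i = i' + 1))

/-- The counterexample graph. -/
def Gr : SimpleGraph Vt where
  Adj u w := adjB u w = true
  symm := ⟨by decide⟩
  loopless := ⟨by decide⟩

instance : DecidableRel Gr.Adj := fun u w => inferInstanceAs (Decidable (adjB u w = true))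

/-- The `i`-th piece. -/
def Zp (i : Fin 4) : Finset Vt := {some (i, 0), some (i, 1), some (i, 2)}

/-- The vertices reachable in the ring without meeting the piece `M`. -/
def Sp (M : Fin 4) : Finset Vt :=
  {some (M + 1, 0), some (M + 1, 1), some (M + 1, 2), some (M + 1, 3),
    some (M + 2, 0), some (M + 2, 1), some (M + 2, 2), some (M + 2, 3),
    some (M + 3, 0), some (M + 3, 1), some (M + 3, 2)}

theorem Sp_spec : ∀ M : Fin 4, ∀ u ∈ Sp M, u ≠ none ∧ ∀ z ∈ Zp M, u ≠ z ∧ ¬ Gr.Adj u z := by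
  decide

theorem Sp_disj {L : Vt → LShape} (hL : IsLContactRep Gr L) (M : Fin 4) (u : Vt)
    (hu : u ∈ Sp M) : ∀ z ∈ Zp M, ∀ p, p ∈ (L u).carrier → p ∈ (L z).carrier → False := by
  intro z hz p h1 h2
  obtain ⟨h3, h4⟩ := (Sp_spec M u hu).2 z hz
  exact not_adj_disjoint hL h3 h4 p h1 h2

/-- Inside status propagates in `Sp M`. -/
theorem inside_step {L : Vt → LShape} (hL : IsLContactRep Gr L) {M : Fin 4}
    (h : Piece L none (Zp M)) {u w : Vt} (hu : u ∈ Sp M) (hw : w ∈ Sp M) (huw : Gr.Adj u w)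
    (hin : Inside L none (Zp M) u) : Inside L none (Zp M) w :=
  h.inside_adj hL (Sp_spec M u hu).1 (Sp_spec M w hw).1 huw (Sp_disj hL M u hu) hin

/-- Finite facts about the ring. -/
theorem ring_facts : ∀ M k : Fin 4, k ≠ 3 →
    (some (M + 1, k) ∈ Sp M ∧ some (M + 2, k) ∈ Sp M ∧ some (M + 3, k) ∈ Sp M) ∧
    (k ≠ 1 → Gr.Adj (some (M + 1, k)) (some (M + 1, 1))) ∧
    (k ≠ 0 → Gr.Adj (some (M + 2, k)) (some (M + 2, 0))) ∧
    (k ≠ 0 → Gr.Adj (some (M + 3, k)) (some (M + 3, 0))) := by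
  decide

/-- More finite facts about the ring. -/
theorem ring_facts' : ∀ M : Fin 4, some (M + 1, 3) ∈ Sp M ∧ some (M + 2, 3) ∈ Sp M ∧
    Gr.Adj (some (M + 1, 1)) (some (M + 1, 3)) ∧ Gr.Adj (some (M + 1, 3)) (some (M + 2, 0)) ∧
    Gr.Adj (some (M + 3, 0)) (some (M + 2, 3)) ∧ Gr.Adj (some (M + 2, 3)) (some (M + 2, 1)) ∧
    Gr.Adj (some (M + 2, 1)) (some (M + 2, 0)) := by
  decide

theorem ring_cases : ∀ M j : Fin 4, j ≠ M → j = M + 1 ∨ j = M + 2 ∨ j = M + 3 := by
  decide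

theorem inside_to_hub {L : Vt → LShape} (hL : IsLContactRep Gr L) {M : Fin 4}
    (h : Piece L none (Zp M)) (j k : Fin 4) (hj : j ≠ M) (hk : k ≠ 3)
    (hin : Inside L none (Zp M) (some (j, k))) : Inside L none (Zp M) (some (M + 2, 0)) := by
  have hstep := fun {u w : Vt} => inside_step hL h (u := u) (w := w)
  obtain ⟨⟨f1, f2, f3⟩, f4, f5, f6⟩ := ring_facts M k hk
  obtain ⟨⟨g1, g2, g3⟩, -⟩ := ring_facts M 0 (by decide)
  obtain ⟨⟨e1, e2, e3⟩, -⟩ := ring_facts M 1 (by decide)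
  obtain ⟨r1, r2, r3, r4, r5, r6, r7⟩ := ring_facts' M
  rcases ring_cases M j hj with rfl | rfl | rfl
  · have h1 : Inside L none (Zp M) (some (M + 1, 1)) := by
      by_cases hk1 : k = 1
      · rwa [hk1] at hin
      · exact hstep f1 e1 (f4 hk1) hin
    exact hstep r1 g2 r4 (hstep e1 r1 r3 h1)
  · by_cases hk1 : k = 0
    · rwa [hk1] at hin
    · exact hstep f2 g2 (f5 hk1) hin
  · have h1 : Inside L none (Zp M) (some (M + 3, 0)) := by
      by_cases hk1 : k = 0
      · rwa [hk1] at hin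
      · exact hstep f3 g3 (f6 hk1) hin
    exact hstep e2 g2 r7 (hstep r2 e2 r6 (hstep g3 r2 r5 h1))

theorem inside_from_hub {L : Vt → LShape} (hL : IsLContactRep Gr L) {M : Fin 4}
    (h : Piece L none (Zp M)) (j k : Fin 4) (hj : j ≠ M) (hk : k ≠ 3)
    (hin : Inside L none (Zp M) (some (M + 2, 0))) : Inside L none (Zp M) (some (j, k)) := by
  have hstep := fun {u w : Vt} => inside_step hL h (u := u) (w := w)
  obtain ⟨⟨f1, f2, f3⟩, f4, f5, f6⟩ := ring_facts M k hk
  obtain ⟨⟨g1, g2, g3⟩, -⟩ := ring_facts M 0 (by decide)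
  obtain ⟨⟨e1, e2, e3⟩, -⟩ := ring_facts M 1 (by decide)
  obtain ⟨r1, r2, r3, r4, r5, r6, r7⟩ := ring_facts' M
  rcases ring_cases M j hj with rfl | rfl | rfl
  · have h1 : Inside L none (Zp M) (some (M + 1, 1)) :=
      hstep r1 e1 r3.symm (hstep g2 r1 r4.symm hin)
    by_cases hk1 : k = 1
    · rwa [hk1]
    · exact hstep e1 f1 (f4 hk1).symm h1
  · by_cases hk1 : k = 0
    · rwa [hk1]
    · exact hstep g2 f2 (f5 hk1).symm hin
  · have h1 : Inside L none (Zp M) (some (M + 3, 0)) :=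
      hstep r2 g3 r5.symm (hstep e2 r2 r6.symm (hstep g2 e2 r7.symm hin))
    by_cases hk1 : k = 0
    · rwa [hk1]
    · exact hstep g3 f3 (f6 hk1).symm h1

/-- All vertices of the other pieces are on the same side. -/
theorem inside_all {L : Vt → LShape} (hL : IsLContactRep Gr L) {M : Fin 4}
    (h : Piece L none (Zp M)) (j k j' k' : Fin 4) (hj : j ≠ M) (hk : k ≠ 3) (hj' : j' ≠ M)
    (hk' : k' ≠ 3) (hin : Inside L none (Zp M) (some (j, k))) :
    Inside L none (Zp M) (some (j', k')) :=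
  inside_from_hub hL h j' k' hj' hk' (inside_to_hub hL h j k hj hk hin)

/-! ### The geometric comparison of two pieces -/

theorem mem_Zp (i : Fin 4) (z : Vt) (hz : z ∈ Zp i) : ∃ k : Fin 4, k ≠ 3 ∧ z = some (i, k) := by
  simp only [Zp, Finset.mem_insert, Finset.mem_singleton] at hz
  rcases hz with rfl | rfl | rfl
  · exact ⟨0, by decide, rfl⟩
  · exact ⟨1, by decide, rfl⟩
  · exact ⟨2, by decide, rfl⟩

/-- A top shape of the piece `i`. -/
def IsTop (L : Vt → LShape) (i : Fin 4) (s : Vt) : Prop :=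
  s ∈ Zp i ∧ (L s).ex = (L none).cx ∧ (L none).cx < (L s).cx ∧ (L none).cy < (L s).cy ∧
      ∀ z ∈ Zp i, (L z).y1 ≤ (L s).cy

theorem not_adj_pieces : ∀ i j k l : Fin 4, i ≠ j → k ≠ 3 → l ≠ 3 →
    ¬ Gr.Adj (some (i, k)) (some (j, l)) := by
  decide

theorem disj_pieces {L : Vt → LShape} (hL : IsLContactRep Gr L) {i M : Fin 4} (hiM : i ≠ M)
    {s : Vt} (hs : s ∈ Zp i) :
    ∀ z ∈ Zp M, ∀ p, p ∈ (L s).carrier → p ∈ (L z).carrier → False := by
  intro z hz p h1 h2
  obtain ⟨k, hk, rfl⟩ := mem_Zp i s hs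
  obtain ⟨l, hl, rfl⟩ := mem_Zp M z hz
  refine not_adj_disjoint hL ?_ (not_adj_pieces i M k l hiM hk hl) p h1 h2
  intro hc
  simp only [Option.some.injEq, Prod.mk.injEq] at hc
  exact hiM hc.1

theorem zp_ne_none {i : Fin 4} {s : Vt} (hs : s ∈ Zp i) : s ≠ none := by
  obtain ⟨k, -, rfl⟩ := mem_Zp i s hs
  simp

theorem top_inside {L : Vt → LShape} {i M : Fin 4} {s t : Vt} (hs : IsTop L i s)
    (ht : IsTop L M t) (hlt : (L s).cy < (L t).cy) : Inside L none (Zp M) s := by
  obtain ⟨hs1, hs2, hs3, hs4, hs5⟩ := hs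
  obtain ⟨ht1, ht2, ht3, ht4, ht5⟩ := ht
  refine ⟨(min (L s).cx (L t).cx, (L s).cy), ?_, ?_⟩
  · rw [mem_carrier_iff]
    refine Or.inl ⟨rfl, ?_, ?_⟩
    · have h1 : (L s).x0 ≤ (L s).ex := min_le_right _ _
      have h2 : (L none).cx < min (L s).cx (L t).cx := lt_min hs3 ht3
      simp only
      linarith
    · exact (min_le_left _ _).trans (le_max_left _ _)
  · refine ⟨lt_min hs3 ht3, hs4, t, ht1, (L t).bend, ?_, min_le_right _ _, hlt.le⟩
    rw [mem_carrier_iff]
    exact Or.inl ⟨rfl, min_le_left _ _, le_max_left _ _⟩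

theorem le_of_top_inside {L : Vt → LShape} (hL : IsLContactRep Gr L) {i M : Fin 4} (hiM : i ≠ M)
    (h : Piece L none (Zp M)) {s t : Vt} (hs : IsTop L i s)
    (ht : IsTop L M t) (hin : Inside L none (Zp M) s) : (L s).cy ≤ (L t).cy := by
  obtain ⟨p, hp, hR⟩ := hin
  have hs1 := hs.1
  have mb : (L s).bend ∈ (L s).carrier := by
    rw [mem_carrier_iff]
    exact Or.inl ⟨rfl, min_le_left _ _, le_max_left _ _⟩
  have hbend : (L s).bend ∉ (L none).carrier := fun hc => bend_not_mem hL (zp_ne_none hs1) hc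
  obtain ⟨-, -, z, hz, q, hq, -, h2⟩ := h.dichotomy hL (zp_ne_none hs1)
    (disj_pieces hL hiM hs1) hp hR mb hbend
  have h3 : q.2 ≤ (L z).y1 := by
    rw [mem_carrier_iff] at hq
    rcases hq with ⟨h4, -, -⟩ | ⟨-, -, h4⟩
    · rw [h4]; exact le_max_left _ _
    · exact h4
  exact (h2.trans h3).trans (ht.2.2.2.2 z hz)

theorem top_ne {L : Vt → LShape} (hL : IsLContactRep Gr L) {i M : Fin 4} (hiM : i ≠ M)
    {s t : Vt} (hs : IsTop L i s) (ht : IsTop L M t) : (L s).cy ≠ (L t).cy := by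
  intro hc
  have m1 : (L s).hEnd ∈ (L s).carrier := by
    rw [mem_carrier_iff]
    exact Or.inl ⟨rfl, min_le_right _ _, le_max_right _ _⟩
  have m2 : (L s).hEnd ∈ (L t).carrier := by
    have : (L s).hEnd = (L t).hEnd := by
      unfold hEnd
      rw [hs.2.1, ht.2.1, hc]
    rw [this, mem_carrier_iff]
    exact Or.inl ⟨rfl, min_le_right _ _, le_max_right _ _⟩
  exact disj_pieces hL hiM hs.1 t ht.1 _ m1 m2

/-- A piece touched by an end of the common vertex is not inside another piece. -/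
theorem killed_not_inside {L : Vt → LShape} (hL : IsLContactRep Gr L) {C M : Fin 4}
    (hCM : C ≠ M) (h : Piece L none (Zp M)) {z : Vt} (hz : z ∈ Zp C)
    (hU : UH (L none) (L z) ∨ UV (L none) (L z)) (hin : Inside L none (Zp M) z) : False := by
  obtain ⟨p, hp, hR⟩ := hin
  have hdich := fun {p'} => h.dichotomy hL (zp_ne_none hz) (disj_pieces hL hCM hz) hp hR
    (p' := p')
  rcases hU with ⟨h1, h2, h3⟩ | ⟨h1, h2, h3⟩
  · -- the horizontal end of `v` lies on the vertical segment of `z`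
    have m : (((L z).cx, (L z).y0) : ℝ × ℝ) ∈ (L z).carrier := by
      rw [mem_carrier_iff]
      exact Or.inr ⟨rfl, le_rfl, by simp only; linarith⟩
    have m' : (((L z).cx, (L z).y0) : ℝ × ℝ) ∉ (L none).carrier := by
      intro hc
      rw [mem_carrier_iff] at hc
      rcases hc with ⟨h4, -, -⟩ | ⟨-, h4, -⟩
      · simp only at h4; linarith
      · rw [v_y0 h.vy] at h4
        simp only at h4
        linarith
    have h5 := (hdich m m').2.1
    simp only at h5
    linarith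
  · have m : (((L z).x0, (L z).cy) : ℝ × ℝ) ∈ (L z).carrier := by
      rw [mem_carrier_iff]
      exact Or.inl ⟨rfl, le_rfl, by simp only; linarith⟩
    have m' : (((L z).x0, (L z).cy) : ℝ × ℝ) ∉ (L none).carrier := by
      intro hc
      rw [mem_carrier_iff] at hc
      rcases hc with ⟨-, h4, -⟩ | ⟨h4, -, -⟩
      · rw [v_x0 h.vx] at h4
        simp only at h4
        linarith
      · simp only at h4; linarith
    have h5 := (hdich m m').1
    simp only at h5
    linarith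

/-! ### The contradiction -/

/-- The piece `i` is touched by an end of the common vertex. -/
def Killed (L : Vt → LShape) (i : Fin 4) : Prop :=
  ∃ z ∈ Zp i, UH (L none) (L z) ∨ UV (L none) (L z)

theorem piece_of_not_killed {L : Vt → LShape} (hL : IsLContactRep Gr L)
    (vx : (L none).cx < (L none).ex) (vy : (L none).cy < (L none).ey) {i : Fin 4}
    (hi : ¬ Killed L i) : Piece L none (Zp i) := by
  let P : Fin 3 → Vt := fun j => some (i, j.castSucc)
  have hP : ∀ j, P j ∈ Zp i := by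
    intro j
    have : ∀ (i : Fin 4) (j : Fin 3), (some (i, j.castSucc) : Vt) ∈ Zp i := by decide
    exact this i j
  have h0 : ∀ j, Gr.Adj none (P j) := by
    intro j
    have : ∀ (i : Fin 4) (j : Fin 3), Gr.Adj none (some (i, j.castSucc)) := by decide
    exact this i j
  have h1 : ∀ j k, j ≠ k → Gr.Adj (P j) (P k) := by
    intro j k hjk
    have : ∀ (i : Fin 4) (j k : Fin 3), j ≠ k →
        Gr.Adj (some (i, j.castSucc)) (some (i, k.castSucc)) := by decide
    exact this i j k hjk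
  have hsurj : ∀ z ∈ Zp i, ∃ j, z = P j := by
    intro z hz
    simp only [Zp, Finset.mem_insert, Finset.mem_singleton] at hz
    rcases hz with rfl | rfl | rfl
    · exact ⟨0, rfl⟩
    · exact ⟨1, rfl⟩
    · exact ⟨2, rfl⟩
  have hu := used_ends hL none P h0 h1 (fun j =>
    ⟨fun hc => hi ⟨P j, hP j, Or.inl hc⟩, fun hc => hi ⟨P j, hP j, Or.inr hc⟩⟩)
  refine ⟨⟨P 0, hP 0⟩, vx, vy, ?_, ?_⟩
  · intro z hz
    obtain ⟨j, rfl⟩ := hsurj z hz
    obtain ⟨w, hw, hU⟩ := (hu j).1
    refine ⟨w, ?_, hU⟩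
    rcases hw with hw | ⟨k, rfl⟩
    · exact Or.inl hw
    · exact Or.inr (hP k)
  · intro z hz
    obtain ⟨j, rfl⟩ := hsurj z hz
    obtain ⟨w, hw, hU⟩ := (hu j).2
    refine ⟨w, ?_, hU⟩
    rcases hw with hw | ⟨k, rfl⟩
    · exact Or.inl hw
    · exact Or.inr (hP k)

theorem exists_two_not_killed {L : Vt → LShape} (hL : IsLContactRep Gr L) :
    ∃ A B : Fin 4, A ≠ B ∧ ¬ Killed L A ∧ ¬ Killed L B := by
  classical
  have hdis : ∀ i j : Fin 4, ∀ z, z ∈ Zp i → z ∈ Zp j → i = j := by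
    intro i j z hi hj
    obtain ⟨k, -, rfl⟩ := mem_Zp i z hi
    obtain ⟨l, -, hl⟩ := mem_Zp j _ hj
    simp only [Option.some.injEq, Prod.mk.injEq] at hl
    exact hl.1
  obtain ⟨aH, hH⟩ : ∃ a : Option (Fin 4), ∀ i, (∃ z ∈ Zp i, UH (L none) (L z)) → a = some i := by
    by_cases hex : ∃ i, ∃ z ∈ Zp i, UH (L none) (L z)
    · obtain ⟨i, z, hz, hU⟩ := hex
      refine ⟨some i, fun j hj => ?_⟩
      obtain ⟨z', hz', hU'⟩ := hj
      have := UH_unique hL hU hU'
      subst this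
      rw [hdis i j z hz hz']
    · exact ⟨none, fun i hi => absurd ⟨i, hi⟩ hex⟩
  obtain ⟨aV, hV⟩ : ∃ a : Option (Fin 4), ∀ i, (∃ z ∈ Zp i, UV (L none) (L z)) → a = some i := by
    by_cases hex : ∃ i, ∃ z ∈ Zp i, UV (L none) (L z)
    · obtain ⟨i, z, hz, hU⟩ := hex
      refine ⟨some i, fun j hj => ?_⟩
      obtain ⟨z', hz', hU'⟩ := hj
      have := UV_unique hL hU hU'
      subst this
      rw [hdis i j z hz hz']
    · exact ⟨none, fun i hi => absurd ⟨i, hi⟩ hex⟩
  have key : ∀ aH aV : Option (Fin 4), ∃ A B : Fin 4, A ≠ B ∧ aH ≠ some A ∧ aV ≠ some A ∧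
      aH ≠ some B ∧ aV ≠ some B := by decide
  obtain ⟨A, B, hAB, h1, h2, h3, h4⟩ := key aH aV
  refine ⟨A, B, hAB, ?_, ?_⟩
  · rintro ⟨z, hz, hU | hU⟩
    · exact h1 (hH A ⟨z, hz, hU⟩)
    · exact h2 (hV A ⟨z, hz, hU⟩)
  · rintro ⟨z, hz, hU | hU⟩
    · exact h3 (hH B ⟨z, hz, hU⟩)
    · exact h4 (hV B ⟨z, hz, hU⟩)

theorem exists_isTop {L : Vt → LShape} {i : Fin 4} (h : Piece L none (Zp i)) :
    ∃ s, IsTop L i s := by
  obtain ⟨s, hs, h1⟩ := h.exists_top
  exact ⟨s, hs, h1⟩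

/-- No three unkilled pieces with increasing heights. -/
theorem no_three {L : Vt → LShape} (hL : IsLContactRep Gr L) {A B C : Fin 4} (hAB : A ≠ B)
    (hCB : C ≠ B) (hB : Piece L none (Zp B)) {a b c : Vt} (ha : IsTop L A a) (hb : IsTop L B b)
    (hc : IsTop L C c) (h1 : (L a).cy < (L b).cy) (h2 : (L b).cy < (L c).cy) : False := by
  have h3 := top_inside ha hb h1
  obtain ⟨k, hk, rfl⟩ := mem_Zp A a ha.1
  obtain ⟨l, hl, rfl⟩ := mem_Zp C c hc.1
  have h4 := inside_all hL hB A k C l hAB hk hCB hl h3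
  have h5 := le_of_top_inside hL hCB hB hc hb h4
  linarith

theorem no_rep_oriented {L : Vt → LShape} (hL : IsLContactRep Gr L)
    (vx : (L none).cx < (L none).ex) (vy : (L none).cy < (L none).ey) : False := by
  obtain ⟨A, B, hAB, hA, hB⟩ := exists_two_not_killed hL
  have pA := piece_of_not_killed hL vx vy hA
  have pB := piece_of_not_killed hL vx vy hB
  obtain ⟨a, ha⟩ := exists_isTop pA
  obtain ⟨b, hb⟩ := exists_isTop pB
  -- wlog `A` is below `B`
  have main : ∀ (A B : Fin 4) (a b : Vt), A ≠ B → Piece L none (Zp A) → Piece L none (Zp B) →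
      IsTop L A a → IsTop L B b → (L a).cy < (L b).cy → False := by
    clear pA pB ha hb hA hB hAB a b A B
    intro A B a b hAB pA pB ha hb hlt
    obtain ⟨C, hCA, hCB⟩ : ∃ C : Fin 4, C ≠ A ∧ C ≠ B := by
      have : ∀ A B : Fin 4, ∃ C : Fin 4, C ≠ A ∧ C ≠ B := by decide
      exact this A B
    have hina := top_inside ha hb hlt
    obtain ⟨k, hk, hak⟩ := mem_Zp A a ha.1
    by_cases hC : Killed L C
    · obtain ⟨z, hz, hU⟩ := hC
      obtain ⟨l, hl, rfl⟩ := mem_Zp C z hz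
      rw [hak] at hina
      exact killed_not_inside hL hCB pB hz hU (inside_all hL pB A k C l hAB hk hCB hl hina)
    · have pC := piece_of_not_killed hL vx vy hC
      obtain ⟨c, hc⟩ := exists_isTop pC
      have n1 := top_ne hL hCA hc ha
      have n2 := top_ne hL hCB hc hb
      rcases lt_or_gt_of_ne n1 with h1 | h1
      · -- `C < A < B`
        exact no_three hL hCA hAB.symm pA hc ha hb h1 hlt
      · rcases lt_or_gt_of_ne n2 with h2 | h2
        · -- `A < C < B`
          exact no_three hL hCA.symm hCB.symm pC ha hc hb h1 h2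
        · -- `A < B < C`
          exact no_three hL hAB hCB pB ha hb hc hlt h2
  rcases lt_or_gt_of_ne (top_ne hL hAB ha hb) with h | h
  · exact main A B a b hAB pA pB ha hb h
  · exact main B A b a hAB.symm pB pA hb ha h

theorem no_rep : ¬ IsLContactGraph Gr := by
  rintro ⟨L, hL⟩
  -- orient the common vertex by reflections
  have key : ∀ L : Vt → LShape, IsLContactRep Gr L → (L none).cx < (L none).ex → False := by
    intro L hL vx
    rcases lt_or_gt_of_ne (L none).hy with h | h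
    · -- reflect in the horizontal axis
      have h1 := hL.swap.flip.swap
      refine no_rep_oriented h1 ?_ ?_
      · exact vx
      · show -(L none).cy < -(L none).ey
        linarith
    · exact no_rep_oriented hL vx h
  rcases lt_or_gt_of_ne (L none).hx with h | h
  · refine key _ hL.flip ?_
    show -(L none).cx < -(L none).ex
    linarith
  · exact key L hL h

end Pool.Agent.Lib.MP_d36e69_co
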