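import Pool.Agent.Lib.MP_d36e69_co.Graph

/-!
# The counterexample graph is planar and satisfies `|E(W)| ≤ 2 |W| - 2`
-/

set_option autoImplicit false

namespace Pool.Agent.Lib.MP_d36e69_co

/-! ### Straight-line drawing -/

/-- Integer coordinates of a straight-line drawing. -/
def pt : Vt → ℤ × ℤ
  | none => (0, 0)
  | some (0, 0) => (8, 3)
  | some (0, 1) => (1, 8)
  | some (0, 2) => (3, 5)
  | some (0, 3) => (0, 9)
  | some (1, 0) => (-3, 7)
  | some (1, 1) => (-9, 2)
  | some (1, 2) => (-5, 4)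
  | some (1, 3) => (-9, 0)
  | some (2, 0) => (-7, -2)
  | some (2, 1) => (-3, -7)
  | some (2, 2) => (-4, -3)
  | some (2, 3) => (-1, -9)
  | some (3, 0) => (2, -8)
  | some (3, 1) => (9, -1)
  | some (3, 2) => (3, -5)
  | some (3, 3) => (9, 1)

/-- The list of edges. -/
def EL : List (Vt × Vt) :=
  [(none, some (0, 0)),
    (none, some (0, 1)),
    (none, some (0, 2)),
    (none, some (1, 0)),
    (none, some (1, 1)),
    (none, some (1, 2)),
    (none, some (2, 0)),
    (none, some (2, 1)),
    (none, some (2, 2)),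
    (none, some (3, 0)),
    (none, some (3, 1)),
    (none, some (3, 2)),
    (some (0, 0), some (0, 1)),
    (some (0, 0), some (0, 2)),
    (some (0, 0), some (3, 3)),
    (some (0, 1), some (0, 2)),
    (some (0, 1), some (0, 3)),
    (some (0, 3), some (1, 0)),
    (some (1, 0), some (1, 1)),
    (some (1, 0), some (1, 2)),
    (some (1, 1), some (1, 2)),
    (some (1, 1), some (1, 3)),
    (some (1, 3), some (2, 0)),
    (some (2, 0), some (2, 1)),
    (some (2, 0), some (2, 2)),
    (some (2, 1), some (2, 2)),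
    (some (2, 1), some (2, 3)),
    (some (2, 3), some (3, 0)),
    (some (3, 0), some (3, 1)),
    (some (3, 0), some (3, 2)),
    (some (3, 1), some (3, 2)),
    (some (3, 1), some (3, 3))]

/-- Orientation determinant. -/
def ori (p q r : ℤ × ℤ) : ℤ := (q.1 - p.1) * (r.2 - p.2) - (q.2 - p.2) * (r.1 - p.1)

/-- Orientation determinant over the reals. -/
def oriR (p q r : ℝ × ℝ) : ℝ := (q.1 - p.1) * (r.2 - p.2) - (q.2 - p.2) * (r.1 - p.1)

/-- The drawing. -/
noncomputable def pos (u : Vt) : ℝ × ℝ := (((pt u).1 : ℝ), ((pt u).2 : ℝ))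

theorem oriR_pos (a b c : Vt) : oriR (pos a) (pos b) (pos c) = (ori (pt a) (pt b) (pt c) : ℝ) := by
  unfold oriR ori pos
  push_cast
  ring

/-- The list of vertices. -/
def VL : List Vt := none :: (List.finRange 4).flatMap fun i => (List.finRange 4).map fun j => some (i, j)

theorem mem_VL : ∀ u : Vt, u ∈ VL := by decide

theorem mem_EL_aux : (VL.all fun u => VL.all fun w =>
    !(adjB u w) || decide ((u, w) ∈ EL) || decide ((w, u) ∈ EL)) = true := by decide

theorem mem_EL (u w : Vt) (h : Gr.Adj u w) : (u, w) ∈ EL ∨ (w, u) ∈ EL := by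
  have h1 := List.all_eq_true.mp (List.all_eq_true.mp mem_EL_aux u (mem_VL u)) w (mem_VL w)
  have h2 : adjB u w = true := h
  simpa [h2] using h1

/-- Vertex-edge check. -/
def okVE (e : Vt × Vt) (w : Vt) : Bool :=
  decide (w = e.1) || decide (w = e.2) || decide (ori (pt e.1) (pt e.2) (pt w) ≠ 0)

/-- Edge-edge check. -/
def okEE (e f : Vt × Vt) : Bool :=
  decide (e.1 = f.1) || decide (e.1 = f.2) || decide (e.2 = f.1) || decide (e.2 = f.2) ||
    decide (0 < ori (pt e.1) (pt e.2) (pt f.1) * ori (pt e.1) (pt e.2) (pt f.2)) ||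
    decide (0 < ori (pt f.1) (pt f.2) (pt e.1) * ori (pt f.1) (pt f.2) (pt e.2))

theorem okVE_all : (EL.all fun e => VL.all fun w => okVE e w) = true := by decide

theorem okEE_all : (EL.all fun e => EL.all fun f => okEE e f) = true := by decide

theorem pt_inj : ∀ u w : Vt, pt u = pt w → u = w := by decide

theorem ori_swap (p q r : ℤ × ℤ) : ori q p r = -ori p q r := by
  unfold ori; ring

theorem ori_ne {u v w : Vt} (huv : Gr.Adj u v) (h1 : w ≠ u) (h2 : w ≠ v) :
    ori (pt u) (pt v) (pt w) ≠ 0 := by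
  have key : ∀ e ∈ EL, ∀ w, w ≠ e.1 → w ≠ e.2 → ori (pt e.1) (pt e.2) (pt w) ≠ 0 := by
    intro e he w h1 h2
    have h3 := List.all_eq_true.mp okVE_all e he
    have h4 := List.all_eq_true.mp h3 w (mem_VL w)
    unfold okVE at h4
    simp only [h1, h2, decide_false, Bool.false_or, decide_eq_true_eq] at h4
    exact h4
  rcases mem_EL u v huv with h | h
  · exact key _ h w h1 h2
  · have := key _ h w h2 h1
    simp only at this
    rw [ori_swap]
    exact neg_ne_zero.mpr this

theorem oriR_segment (a b c d p : ℝ × ℝ) (hp : p ∈ segment ℝ c d) :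
    ∃ s t : ℝ, 0 ≤ s ∧ 0 ≤ t ∧ s + t = 1 ∧ p = s • c + t • d ∧
      oriR a b p = s * oriR a b c + t * oriR a b d := by
  obtain ⟨s, t, hs, ht, hst, rfl⟩ := hp
  refine ⟨s, t, hs, ht, hst, rfl, ?_⟩
  unfold oriR
  simp only [Prod.fst_add, Prod.smul_fst, smul_eq_mul, Prod.snd_add, Prod.smul_snd]
  have : s = 1 - t := by linarith
  subst this
  ring

theorem oriR_self (a b p : ℝ × ℝ) (hp : p ∈ segment ℝ a b) : oriR a b p = 0 := by
  obtain ⟨s, t, -, -, -, -, h⟩ := oriR_segment a b a b p hp
  rw [h]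
  unfold oriR
  ring

/-- Two segments are disjoint if the ends of one are strictly on the same side of the other. -/
theorem disj_of_same_side (a b c d p : ℝ × ℝ) (h : 0 < oriR a b c * oriR a b d)
    (h1 : p ∈ segment ℝ a b) (h2 : p ∈ segment ℝ c d) : False := by
  obtain ⟨s, t, hs, ht, hst, -, h3⟩ := oriR_segment a b c d p h2
  rw [oriR_self a b p h1] at h3
  rcases pos_and_pos_or_neg_and_neg_of_mul_pos h with ⟨k1, k2⟩ | ⟨k1, k2⟩
  · have m1 : 0 ≤ s * oriR a b c := mul_nonneg hs k1.le
    have m2 : 0 ≤ t * oriR a b d := mul_nonneg ht k2.le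
    have m3 : s * oriR a b c = 0 := by linarith
    have m4 : t * oriR a b d = 0 := by linarith
    have m5 : s = 0 := (mul_eq_zero.mp m3).resolve_right k1.ne'
    have m6 : t = 0 := (mul_eq_zero.mp m4).resolve_right k2.ne'
    linarith
  · have m1 : s * oriR a b c ≤ 0 := mul_nonpos_of_nonneg_of_nonpos hs k1.le
    have m2 : t * oriR a b d ≤ 0 := mul_nonpos_of_nonneg_of_nonpos ht k2.le
    have m3 : s * oriR a b c = 0 := by linarith
    have m4 : t * oriR a b d = 0 := by linarith
    have m5 : s = 0 := (mul_eq_zero.mp m3).resolve_right k1.ne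
    have m6 : t = 0 := (mul_eq_zero.mp m4).resolve_right k2.ne
    linarith

/-- Two segments with a common end that are not collinear meet only there. -/
theorem meet_at_common (a b c p : ℝ × ℝ) (h : oriR a b c ≠ 0)
    (h1 : p ∈ segment ℝ a b) (h2 : p ∈ segment ℝ a c) : p = a := by
  obtain ⟨s, t, hs, ht, hst, hp, h3⟩ := oriR_segment a b a c p h2
  rw [oriR_self a b p h1] at h3
  have h4 : oriR a b a = 0 := by unfold oriR; ring
  rw [h4, mul_zero, zero_add] at h3
  have h5 : t = 0 := (mul_eq_zero.mp h3.symm).resolve_right h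
  subst h5
  have : s = 1 := by linarith
  subst this
  rw [hp]
  simp

theorem drawing : IsStraightLineDrawing Gr pos := by
  refine ⟨?_, ?_, ?_⟩
  · intro u w huw
    apply pt_inj
    unfold pos at huw
    simp only [Prod.mk.injEq, Int.cast_inj] at huw
    exact Prod.ext huw.1 huw.2
  · intro u v w huv hw
    by_contra hcon
    push Not at hcon
    have h1 := oriR_self _ _ _ hw
    rw [oriR_pos] at h1
    exact ori_ne huv hcon.1 hcon.2 (by exact_mod_cast h1)
  · intro a b c d hab hcd hne p h1 h2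
    have comm1 : p ∈ segment ℝ (pos b) (pos a) := by rw [segment_symm]; exact h1
    have comm2 : p ∈ segment ℝ (pos d) (pos c) := by rw [segment_symm]; exact h2
    by_cases e1 : a = c
    · subst e1
      have hbd : d ≠ b := fun h => hne (by rw [h])
      refine ⟨a, Or.inl rfl, Or.inl rfl, meet_at_common _ _ _ p ?_ h1 h2⟩
      rw [oriR_pos]
      exact_mod_cast ori_ne hab hcd.ne.symm hbd
    by_cases e2 : a = d
    · subst e2
      have hbc : c ≠ b := fun h => hne (by rw [h, Sym2.eq_swap])
      refine ⟨a, Or.inl rfl, Or.inr rfl, meet_at_common _ _ _ p ?_ h1 comm2⟩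
      rw [oriR_pos]
      exact_mod_cast ori_ne hab hcd.ne hbc
    by_cases e3 : b = c
    · subst e3
      refine ⟨b, Or.inr rfl, Or.inl rfl, meet_at_common _ _ _ p ?_ comm1 h2⟩
      rw [oriR_pos]
      exact_mod_cast ori_ne hab.symm hcd.ne.symm (Ne.symm e2)
    by_cases e4 : b = d
    · subst e4
      refine ⟨b, Or.inr rfl, Or.inr rfl, meet_at_common _ _ _ p ?_ comm1 comm2⟩
      rw [oriR_pos]
      exact_mod_cast ori_ne hab.symm hcd.ne (Ne.symm e1)
    -- disjoint edges
    exfalso
    have key : ∀ e ∈ EL, ∀ f ∈ EL, e.1 ≠ f.1 → e.1 ≠ f.2 → e.2 ≠ f.1 → e.2 ≠ f.2 →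
        ∀ p, p ∈ segment ℝ (pos e.1) (pos e.2) → p ∈ segment ℝ (pos f.1) (pos f.2) → False := by
      intro e he f hf n1 n2 n3 n4 p k1 k2
      have h3 := List.all_eq_true.mp okEE_all e he
      have h4 := List.all_eq_true.mp h3 f hf
      unfold okEE at h4
      simp only [n1, n2, n3, n4, decide_false, Bool.false_or, Bool.or_eq_true,
        decide_eq_true_eq] at h4
      rcases h4 with h4 | h4
      · refine disj_of_same_side _ _ _ _ p ?_ k1 k2
        rw [oriR_pos, oriR_pos]
        exact_mod_cast h4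
      · refine disj_of_same_side _ _ _ _ p ?_ k2 k1
        rw [oriR_pos, oriR_pos]
        exact_mod_cast h4
    rcases mem_EL a b hab with m1 | m1 <;> rcases mem_EL c d hcd with m2 | m2
    · exact key _ m1 _ m2 e1 e2 e3 e4 p h1 h2
    · exact key _ m1 _ m2 e2 e1 e4 e3 p h1 comm2
    · exact key _ m1 _ m2 e3 e4 e1 e2 p comm1 h2
    · exact key _ m1 _ m2 e4 e3 e2 e1 p comm1 comm2

/-! ### Sparsity -/

/-- Parent in the first spanning tree. -/
def par1 : Vt → Vt
  | none => none
  | some (i, j) => if j = 0 then none else if j = 1 then some (i, 0) else some (i, 1)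

/-- Rank in the first spanning tree. -/
def rk1 : Vt → ℕ
  | none => 0
  | some (_, j) => if j = 0 then 1 else if j = 1 then 2 else 3

/-- Parent in the second spanning tree. -/
def par2 : Vt → Vt
  | none => none
  | some (i, j) => if j = 0 then some (i, 2) else if j = 3 then some (i + 1, 0) else none

/-- Rank in the second spanning tree. -/
def rk2 : Vt → ℕ
  | none => 0
  | some (_, j) => if j = 0 then 2 else if j = 3 then 3 else 1

theorem par1_lt : ∀ u : Vt, u ≠ none → rk1 (par1 u) < rk1 u := by decide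

theorem par2_lt : ∀ u : Vt, u ≠ none → rk2 (par2 u) < rk2 u := by decide

theorem adj_cases : ∀ u w : Vt, Gr.Adj u w → (u ≠ none ∧ par1 u = w) ∨ (w ≠ none ∧ par1 w = u) ∨
    (u ≠ none ∧ par2 u = w) ∨ (w ≠ none ∧ par2 w = u) := by decide

theorem sparse : IsSparse22 Gr := by
  classical
  intro W hW
  -- roots of the two forests restricted to `W`
  obtain ⟨m1, hm1, hmin1⟩ := W.exists_min_image rk1 hW
  obtain ⟨m2, hm2, hmin2⟩ := W.exists_min_image rk2 hW
  let T : Finset (Sym2 Vt) := (W.erase m1).image (fun u => s(u, par1 u)) ∪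
    (W.erase m2).image (fun u => s(u, par2 u))
  have hsub : {e ∈ Gr.edgeSet | ∀ x ∈ e, x ∈ W} ⊆ (T : Set (Sym2 Vt)) := by
    rintro e ⟨he, hW'⟩
    induction e using Sym2.ind with
    | _ u w =>
    have huw : Gr.Adj u w := he
    have hu : u ∈ W := hW' u (by simp)
    have hw : w ∈ W := hW' w (by simp)
    have c1 : ∀ u w : Vt, u ∈ W → w ∈ W → u ≠ none → par1 u = w → s(u, w) ∈ T := by
      intro u w hu hw hun hp
      refine Finset.mem_union_left _ (Finset.mem_image.mpr ⟨u, ?_, by rw [hp]⟩)
      refine Finset.mem_erase.mpr ⟨?_, hu⟩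
      rintro rfl
      have h1 := hmin1 w hw
      have h2 := par1_lt u hun
      rw [hp] at h2
      omega
    have c2 : ∀ u w : Vt, u ∈ W → w ∈ W → u ≠ none → par2 u = w → s(u, w) ∈ T := by
      intro u w hu hw hun hp
      refine Finset.mem_union_right _ (Finset.mem_image.mpr ⟨u, ?_, by rw [hp]⟩)
      refine Finset.mem_erase.mpr ⟨?_, hu⟩
      rintro rfl
      have h1 := hmin2 w hw
      have h2 := par2_lt u hun
      rw [hp] at h2
      omega
    rcases adj_cases u w huw with ⟨h1, h2⟩ | ⟨h1, h2⟩ | ⟨h1, h2⟩ | ⟨h1, h2⟩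
    · exact c1 u w hu hw h1 h2
    · have := c1 w u hw hu h1 h2
      rw [Sym2.eq_swap]; exact this
    · exact c2 u w hu hw h1 h2
    · have := c2 w u hw hu h1 h2
      rw [Sym2.eq_swap]; exact this
  have h1 : {e ∈ Gr.edgeSet | ∀ x ∈ e, x ∈ W}.ncard ≤ T.card := by
    rw [← Set.ncard_coe_finset]
    exact Set.ncard_le_ncard hsub (Finset.finite_toSet T)
  have h2 : T.card ≤ (W.card - 1) + (W.card - 1) := by
    refine (Finset.card_union_le _ _).trans ?_
    have k1 := Finset.card_image_le (s := W.erase m1) (f := fun u => s(u, par1 u))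
    have k2 := Finset.card_image_le (s := W.erase m2) (f := fun u => s(u, par2 u))
    rw [Finset.card_erase_of_mem hm1] at k1
    rw [Finset.card_erase_of_mem hm2] at k2
    omega
  have h3 : 0 < W.card := hW.card_pos
  omega

/-- The main theorem: a planar graph satisfying `(∗)` that is not an L-contact graph. -/
theorem main : ∃ (V : Type) (_ : Finite V) (G : SimpleGraph V),
    (∃ pos : V → ℝ × ℝ, IsStraightLineDrawing G pos) ∧ IsSparse22 G ∧ ¬ IsLContactGraph G :=
  ⟨Vt, inferInstance, Gr, ⟨pos, drawing⟩, sparse, no_rep⟩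

end Pool.Agent.Lib.MP_d36e69_co
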