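import Pool.Agent.Lib.MP_d36e69_co.Shapes

/-!
# A closed piece attached to an L-shape, and the region it encloses

`Piece L v Z` says that the shape of `v` is oriented like the letter L (bend at the bottom left)
and that both ends of each shape of `Z` touch shapes of `Z ∪ {v}`.
-/

set_option autoImplicit false

namespace Pool.Agent.Lib.MP_d36e69_co

open LShape

variable {V : Type}

/-- Both ends of each shape in `Z` touch shapes in `Z ∪ {v}`. -/
structure Piece (L : V → LShape) (v : V) (Z : Finset V) : Prop where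
  nonempty : Z.Nonempty
  vx : (L v).cx < (L v).ex
  vy : (L v).cy < (L v).ey
  usedH : ∀ z ∈ Z, ∃ w, (w = v ∨ w ∈ Z) ∧ UH (L z) (L w)
  usedV : ∀ z ∈ Z, ∃ w, (w = v ∨ w ∈ Z) ∧ UV (L z) (L w)

theorem Piece.swap {L : V → LShape} {v : V} {Z : Finset V} (h : Piece L v Z) :
    Piece (fun v => (L v).swap) v Z :=
  ⟨h.nonempty, h.vy, h.vx, h.usedV, h.usedH⟩

theorem v_x0 {s : LShape} (h : s.cx < s.ex) : s.x0 = s.cx := min_eq_left h.le
theorem v_x1 {s : LShape} (h : s.cx < s.ex) : s.x1 = s.ex := max_eq_right h.le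
theorem v_y0 {s : LShape} (h : s.cy < s.ey) : s.y0 = s.cy := min_eq_left h.le
theorem v_y1 {s : LShape} (h : s.cy < s.ey) : s.y1 = s.ey := max_eq_right h.le

theorem Piece.left {L : V → LShape} {v : V} {Z : Finset V} (h : Piece L v Z) :
    ∀ z ∈ Z, (L v).cx ≤ (L z).x0 := by
  obtain ⟨s, hs, hmin⟩ := Z.exists_min_image (fun z => (L z).x0) h.nonempty
  suffices hsuff : (L v).cx ≤ (L s).x0 from fun z hz => hsuff.trans (hmin z hz)
  by_contra hcon
  push Not at hcon
  -- a shape of `Z` with its bend on the left side is impossible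
  have key : ∀ w ∈ Z, (L w).x0 = (L s).x0 → (L w).cx = (L s).x0 → False := by
    intro w hw h1 h2
    obtain ⟨w', hw', hU⟩ := h.usedV w hw
    obtain ⟨-, h4, -⟩ := hU
    rcases hw' with rfl | hw'
    · rw [v_x0 h.vx] at h4
      linarith
    · have := hmin w' hw'
      linarith
  rcases min_choice (L s).cx (L s).ex with hm | hm
  · exact key s hs rfl hm.symm
  · obtain ⟨w, hw, hU⟩ := h.usedH s hs
    obtain ⟨h3, -, -⟩ := hU
    have h4 : (L s).x0 = (L s).ex := hm
    rcases hw with rfl | hw
    · linarith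
    · have h5 : (L w).x0 ≤ (L w).cx := min_le_left _ _
      have h6 := hmin w hw
      exact key w hw (by linarith) (by linarith)

theorem Piece.right {L : V → LShape} {v : V} {Z : Finset V} (h : Piece L v Z) :
    ∀ z ∈ Z, (L z).x1 < (L v).ex := by
  obtain ⟨s, hs, hmax⟩ := Z.exists_max_image (fun z => (L z).x1) h.nonempty
  suffices hsuff : (L s).x1 < (L v).ex from fun z hz => (hmax z hz).trans_lt hsuff
  by_contra hcon
  push Not at hcon
  have hvx := h.vx
  have key : ∀ w ∈ Z, (L w).cx = (L s).x1 → False := by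
    intro w hw h2
    obtain ⟨w', hw', hU⟩ := h.usedV w hw
    obtain ⟨-, -, h4⟩ := hU
    rcases hw' with rfl | hw'
    · rw [v_x1 h.vx] at h4
      linarith
    · have := hmax w' hw'
      linarith
  rcases max_choice (L s).cx (L s).ex with hm | hm
  · exact key s hs hm.symm
  · obtain ⟨w, hw, hU⟩ := h.usedH s hs
    obtain ⟨h3, -, -⟩ := hU
    have h4 : (L s).x1 = (L s).ex := hm
    rcases hw with rfl | hw
    · linarith
    · exact key w hw (by linarith)

theorem Piece.bottom {L : V → LShape} {v : V} {Z : Finset V} (h : Piece L v Z) :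
    ∀ z ∈ Z, (L v).cy ≤ (L z).y0 := h.swap.left

theorem Piece.top {L : V → LShape} {v : V} {Z : Finset V} (h : Piece L v Z) :
    ∀ z ∈ Z, (L z).y1 < (L v).ey := h.swap.right

/-- The top shape of a piece. -/
theorem Piece.exists_top {L : V → LShape} {v : V} {Z : Finset V} (h : Piece L v Z) :
    ∃ s ∈ Z, (L s).ex = (L v).cx ∧ (L v).cx < (L s).cx ∧ (L v).cy < (L s).cy ∧
      ∀ z ∈ Z, (L z).y1 ≤ (L s).cy := by
  obtain ⟨s, hs, hmax⟩ := Z.exists_max_image (fun z => (L z).y1) h.nonempty
  have key : ∀ w ∈ Z, (L w).cy = (L s).y1 → ∃ s ∈ Z, (L s).ex = (L v).cx ∧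
      (L v).cx < (L s).cx ∧ (L v).cy < (L s).cy ∧ ∀ z ∈ Z, (L z).y1 ≤ (L s).cy := by
    intro w hw hy
    obtain ⟨w', hw', hU⟩ := h.usedH w hw
    obtain ⟨h1, h2, h3⟩ := hU
    rcases hw' with rfl | hw'
    · have hl := h.left w hw
      have h4 : (L w).x0 ≤ (L w).cx := min_le_left _ _
      rw [v_y0 h.vy] at h2
      exact ⟨w, hw, h1.symm, lt_of_le_of_ne (by linarith) (fun hc => (L w).hx (by linarith)),
        h2, fun z hz => (hmax z hz).trans hy.symm.le⟩
    · have := hmax w' hw'
      linarith
  rcases max_choice (L s).cy (L s).ey with hm | hm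
  · exact key s hs hm.symm
  · obtain ⟨w, hw, hU⟩ := h.usedV s hs
    obtain ⟨h1, h2, h3⟩ := hU
    have h4 : (L s).y1 = (L s).ey := hm
    rcases hw with rfl | hw
    · exfalso
      have h5 := h.bottom s hs
      have h6 : (L s).y0 ≤ (L s).cy := min_le_left _ _
      have h7 : (L s).cy ≤ (L s).y1 := le_max_left _ _
      exact (L s).hy (by linarith)
    · exact key w hw (by linarith)

/-- The rightmost point of a piece above a level lies above the point of the same abscissa at that
level, and that point belongs to the piece. -/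
theorem Piece.rightmost {L : V → LShape} {v : V} {Z : Finset V} (h : Piece L v Z) {y : ℝ}
    (hy : (L v).cy < y) {q : ℝ × ℝ} {z : V} (hz : z ∈ Z) (hq : q ∈ (L z).carrier)
    (hqy : y ≤ q.2) :
    ∃ s ∈ Z, ∃ x : ℝ, ((x, y) : ℝ × ℝ) ∈ (L s).carrier ∧ q.1 ≤ x := by
  classical
  -- rightmost abscissa of a shape above level `y`
  let r : V → ℝ := fun s => if y ≤ (L s).cy then (L s).x1 else (L s).cx
  let Z' : Finset V := Z.filter fun s => y ≤ (L s).y1
  have hzZ' : z ∈ Z' := by
    rw [Finset.mem_filter]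
    refine ⟨hz, ?_⟩
    rw [mem_carrier_iff] at hq
    rcases hq with ⟨h1, -, -⟩ | ⟨-, -, h3⟩
    · have : (L z).cy ≤ (L z).y1 := le_max_left _ _
      linarith
    · linarith
  have hqr : q.1 ≤ r z := by
    simp only [r]
    rw [mem_carrier_iff] at hq
    rcases hq with ⟨h1, -, h3⟩ | ⟨h1, h2, h3⟩
    · rw [if_pos (by linarith)]
      exact h3
    · split_ifs
      · rw [h1]; exact le_max_left _ _
      · rw [h1]
  obtain ⟨s, hs, hmax⟩ := Z'.exists_max_image r ⟨z, hzZ'⟩
  -- the case of a vertical segment at the rightmost abscissa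
  have key : ∀ w ∈ Z', (L w).cx = r s →
      ∃ s ∈ Z, ∃ x : ℝ, ((x, y) : ℝ × ℝ) ∈ (L s).carrier ∧ q.1 ≤ x := by
    intro w hw hwx
    have hw1 := (Finset.mem_filter.mp hw).1
    have hw2 := (Finset.mem_filter.mp hw).2
    obtain ⟨w', hw', hU⟩ := h.usedV w hw1
    obtain ⟨h1, h2, h3⟩ := hU
    -- no horizontal segment of `Z` at height at least `y` passes strictly beyond
    have hno : y ≤ (L w').cy → w' ∈ Z → False := by
      intro h4 h5
      have h6 : w' ∈ Z' := by
        rw [Finset.mem_filter]
        exact ⟨h5, h4.trans (le_max_left _ _)⟩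
      have h7 := hmax w' h6
      simp only [r] at h7 hwx
      rw [if_pos h4] at h7
      linarith
    rcases lt_or_gt_of_ne (L w).hy with hlt | hgt
    · -- bend on top
      have h4 : (L w).y1 = (L w).cy := max_eq_left hlt.le
      have h5 : (L w).y0 = (L w).ey := min_eq_right hlt.le
      have h6 : (L w).ey < y := by
        rcases hw' with rfl | hw'
        · linarith
        · by_contra hcon
          push Not at hcon
          exact hno (by linarith) hw'
      refine ⟨w, hw1, (L w).cx, ?_, ?_⟩
      · rw [mem_carrier_iff]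
        exact Or.inr ⟨rfl, by simp only; linarith, by simp only; linarith⟩
      · rw [hwx]
        exact hqr.trans (hmax z hzZ')
    · -- end on top
      exfalso
      have h4 : (L w).y1 = (L w).ey := max_eq_right hgt.le
      rcases hw' with rfl | hw'
      · linarith
      · exact hno (by linarith) hw'
  by_cases hsy : y ≤ (L s).cy
  · have hrs : r s = (L s).x1 := if_pos hsy
    rcases max_choice (L s).cx (L s).ex with hm | hm
    · exact key s hs (by rw [hrs]; exact hm.symm)
    · have hs1 := (Finset.mem_filter.mp hs).1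
      obtain ⟨w, hw, hU⟩ := h.usedH s hs1
      obtain ⟨h1, h2, h3⟩ := hU
      have h4 : (L s).x1 = (L s).ex := hm
      have h5 : (L s).cx ≤ (L s).x1 := le_max_left _ _
      rcases hw with rfl | hw
      · exfalso
        have h6 := h.left s hs1
        have h7 : (L s).x0 ≤ (L s).cx := min_le_left _ _
        exact (L s).hx (by linarith)
      · have hwZ' : w ∈ Z' := by
          rw [Finset.mem_filter]
          exact ⟨hw, by linarith⟩
        have h6 := hmax w hwZ'
        have h7 : (L w).cx ≤ r w := by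
          simp only [r]
          split_ifs
          · exact le_max_left _ _
          · exact le_rfl
        exact key w hwZ' (by linarith)
  · exact key s hs (by simp only [r]; rw [if_neg hsy])

/-- The open region enclosed by a piece `Z` attached to `v`. -/
def Region (L : V → LShape) (v : V) (Z : Finset V) (p : ℝ × ℝ) : Prop :=
  (L v).cx < p.1 ∧ (L v).cy < p.2 ∧ ∃ z ∈ Z, ∃ q ∈ (L z).carrier, p.1 ≤ q.1 ∧ p.2 ≤ q.2

theorem region_swap (L : V → LShape) (v : V) (Z : Finset V) (p : ℝ × ℝ) :
    Region (fun v => (L v).swap) v Z p ↔ Region L v Z p.swap := by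
  unfold Region
  constructor
  · rintro ⟨h1, h2, z, hz, q, hq, h3, h4⟩
    exact ⟨h2, h1, z, hz, q.swap, (swap_carrier _ _).mp hq, h4, h3⟩
  · rintro ⟨h1, h2, z, hz, q, hq, h3, h4⟩
    exact ⟨h2, h1, z, hz, q.swap, (swap_carrier _ _).mpr (by simpa using hq), h4, h3⟩

/-- Moving horizontally along a shape disjoint from the piece keeps us in the region. -/
theorem Piece.move_h {G : SimpleGraph V} {L : V → LShape} (hL : IsLContactRep G L) {v : V}
    {Z : Finset V} (h : Piece L v Z) {u : V} (huv : u ≠ v)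
    (hdisj : ∀ z ∈ Z, ∀ p, p ∈ (L u).carrier → p ∈ (L z).carrier → False)
    {a b : ℝ} (ha' : (L u).x0 ≤ a ∧ a ≤ (L u).x1) (hb' : (L u).x0 ≤ b ∧ b ≤ (L u).x1)
    (hbv : ((b, (L u).cy) : ℝ × ℝ) ∉ (L v).carrier)
    (hR : Region L v Z (a, (L u).cy)) : Region L v Z (b, (L u).cy) := by
  obtain ⟨h1, h2, z, hz, q, hq, h3, h4⟩ := hR
  simp only at h1 h2 h3 h4
  have hqtop : q.2 < (L v).ey := by
    have h5 := h.top z hz
    rw [mem_carrier_iff] at hq
    rcases hq with ⟨h6, -, -⟩ | ⟨-, -, h6⟩
    · have : (L z).cy ≤ (L z).y1 := le_max_left _ _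
      linarith
    · linarith
  rcases le_total b a with hba | hab
  · -- moving left
    refine ⟨?_, h2, z, hz, q, hq, by simp only; linarith, h4⟩
    simp only
    by_contra hcon
    push Not at hcon
    -- the wall point
    have m1 : (((L v).cx, (L u).cy) : ℝ × ℝ) ∈ (L v).carrier := by
      rw [mem_carrier_iff]
      refine Or.inr ⟨rfl, ?_, ?_⟩
      · rw [v_y0 h.vy]; exact h2.le
      · rw [v_y1 h.vy]; simp only; linarith
    have m2 : (((L v).cx, (L u).cy) : ℝ × ℝ) ∈ (L u).carrier := by
      rw [mem_carrier_iff]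
      exact Or.inl ⟨rfl, by simp only; linarith, by simp only; linarith⟩
    have hb0 : b < (L v).cx := by
      refine lt_of_le_of_ne hcon ?_
      rintro rfl
      exact hbv m1
    rcases hL.1 u v huv _ m2 m1 with hc | hc
    · rcases hc.1 with hc | hc
      · have e1 : (L v).cx = (L u).ex := congrArg Prod.fst hc
        -- `ex` is strictly inside the horizontal segment: impossible
        have e2 : (L u).x0 ≤ b := hb'.1
        have e3 : a ≤ (L u).x1 := ha'.2
        unfold x0 at e2
        unfold x1 at e3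
        rcases min_le_iff.mp e2 with k | k
        · rcases le_max_iff.mp e3 with k' | k'
          · linarith
          · linarith
        · linarith
      · have e1 : (L u).cy = (L u).ey := congrArg Prod.snd hc
        exact (L u).hy e1.symm
    · rcases hc.1 with hc | hc
      · have e1 : (L v).cx = (L v).ex := congrArg Prod.fst hc
        exact (L v).hx e1.symm
      · have e1 : (L u).cy = (L v).ey := congrArg Prod.snd hc
        linarith
  · -- moving right
    obtain ⟨s, hs, x, hx, hqx⟩ := h.rightmost h2 hz hq h4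
    by_cases hbx : b ≤ x
    · refine ⟨by simp only; linarith, h2, s, hs, (x, (L u).cy), hx, hbx, le_rfl⟩
    · exfalso
      push Not at hbx
      refine hdisj s hs (x, (L u).cy) ?_ hx
      rw [mem_carrier_iff]
      exact Or.inl ⟨rfl, by simp only; linarith, by simp only; linarith⟩

theorem Piece.move_v {G : SimpleGraph V} {L : V → LShape} (hL : IsLContactRep G L) {v : V}
    {Z : Finset V} (h : Piece L v Z) {u : V} (huv : u ≠ v)
    (hdisj : ∀ z ∈ Z, ∀ p, p ∈ (L u).carrier → p ∈ (L z).carrier → False)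
    {a b : ℝ} (ha' : (L u).y0 ≤ a ∧ a ≤ (L u).y1) (hb' : (L u).y0 ≤ b ∧ b ≤ (L u).y1)
    (hbv : (((L u).cx, b) : ℝ × ℝ) ∉ (L v).carrier)
    (hR : Region L v Z ((L u).cx, a)) : Region L v Z ((L u).cx, b) := by
  have := Piece.move_h hL.swap h.swap huv
    (fun z hz p h1 h2 => hdisj z hz p.swap ((swap_carrier _ _).mp h1) ((swap_carrier _ _).mp h2))
    (a := a) (b := b) ha' hb'
    (fun hc => hbv ((swap_carrier _ _).mp hc))
    ((region_swap L v Z _).mpr hR)
  exact (region_swap L v Z _).mp this

/-- The bend of a shape does not lie on another shape. -/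
theorem bend_not_mem {G : SimpleGraph V} {L : V → LShape} (hL : IsLContactRep G L) {u v : V}
    (huv : u ≠ v) (h : (L u).bend ∈ (L v).carrier) : False := by
  have m : (L u).bend ∈ (L u).carrier := by
    rw [mem_carrier_iff]
    exact Or.inl ⟨rfl, min_le_left _ _, le_max_left _ _⟩
  rcases hL.1 u v huv _ m h with hc | hc
  · rcases hc.1 with hc | hc
    · exact (L u).hx (congrArg Prod.fst hc).symm
    · exact (L u).hy (congrArg Prod.snd hc).symm
  · exact hc.2.2.2 rfl

/-- Dichotomy: a shape disjoint from the piece that meets the region stays in it off `v`. -/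
theorem Piece.dichotomy {G : SimpleGraph V} {L : V → LShape} (hL : IsLContactRep G L) {v : V}
    {Z : Finset V} (h : Piece L v Z) {u : V} (huv : u ≠ v)
    (hdisj : ∀ z ∈ Z, ∀ p, p ∈ (L u).carrier → p ∈ (L z).carrier → False)
    {p : ℝ × ℝ} (hp : p ∈ (L u).carrier) (hR : Region L v Z p)
    {p' : ℝ × ℝ} (hp' : p' ∈ (L u).carrier) (hpv : p' ∉ (L v).carrier) : Region L v Z p' := by
  have hbend : (L u).bend ∉ (L v).carrier := fun hc => bend_not_mem hL huv hc
  have bx : (L u).x0 ≤ (L u).cx ∧ (L u).cx ≤ (L u).x1 := ⟨min_le_left _ _, le_max_left _ _⟩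
  have by' : (L u).y0 ≤ (L u).cy ∧ (L u).cy ≤ (L u).y1 := ⟨min_le_left _ _, le_max_left _ _⟩
  -- first reach the bend
  have hRb : Region L v Z (L u).bend := by
    have hp2 := hp
    rw [mem_carrier_iff] at hp2
    rcases hp2 with ⟨h1, h2⟩ | ⟨h1, h2⟩
    · have e : p = (p.1, (L u).cy) := Prod.ext rfl h1
      rw [e] at hR
      exact h.move_h hL huv hdisj h2 bx hbend hR
    · have e : p = ((L u).cx, p.2) := Prod.ext h1 rfl
      rw [e] at hR
      exact h.move_v hL huv hdisj h2 by' hbend hR
  have hp2 := hp'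
  rw [mem_carrier_iff] at hp2
  rcases hp2 with ⟨h1, h2⟩ | ⟨h1, h2⟩
  · have e : p' = (p'.1, (L u).cy) := Prod.ext rfl h1
    rw [e] at hpv ⊢
    exact h.move_h hL huv hdisj bx h2 hpv hRb
  · have e : p' = ((L u).cx, p'.2) := Prod.ext h1 rfl
    rw [e] at hpv ⊢
    exact h.move_v hL huv hdisj by' h2 hpv hRb

/-- `u` meets the region. -/
def Inside (L : V → LShape) (v : V) (Z : Finset V) (u : V) : Prop :=
  ∃ p ∈ (L u).carrier, Region L v Z p

/-- Being inside the region propagates along edges avoiding the piece. -/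
theorem Piece.inside_adj {G : SimpleGraph V} {L : V → LShape} (hL : IsLContactRep G L) {v : V}
    {Z : Finset V} (h : Piece L v Z) {u w : V} (huv : u ≠ v) (hwv : w ≠ v) (huw : G.Adj u w)
    (hdisj : ∀ z ∈ Z, ∀ p, p ∈ (L u).carrier → p ∈ (L z).carrier → False)
    (hin : Inside L v Z u) : Inside L v Z w := by
  obtain ⟨p, hp, hR⟩ := hin
  obtain ⟨q, hq⟩ := (hL.2 u w huw.ne).mp huw
  -- the contact point is on both shapes
  have hend : ∀ s : LShape, ∀ p, s.IsEnd p → p ∈ s.carrier := by
    intro s p hp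
    rw [mem_carrier_iff]
    rcases hp with rfl | rfl
    · exact Or.inl ⟨rfl, min_le_right _ _, le_max_right _ _⟩
    · exact Or.inr ⟨rfl, min_le_right _ _, le_max_right _ _⟩
  have hqu : q ∈ (L u).carrier := by
    rcases hq with hq | hq
    · exact hend _ _ hq.1
    · exact hq.2.1
  have hqw : q ∈ (L w).carrier := by
    rcases hq with hq | hq
    · exact hq.2.1
    · exact hend _ _ hq.1
  -- the contact point is not on `v`
  have hqv : q ∉ (L v).carrier := by
    intro hqv
    have c1 := hL.1 u v huv q hqu hqv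
    have c2 := hL.1 w v hwv q hqw hqv
    rcases hq with hq | hq
    · -- end of `u`, interior to `w`: so it must be an end of `v`, then not an end of `u`
      rcases c2 with c2 | c2
      · exact hq.2.2.1 c2.1
      · rcases c1 with c1 | c1
        · exact c1.2.2.1 c2.1
        · exact c1.2.2.1 hq.1
    · rcases c1 with c1 | c1
      · exact hq.2.2.1 c1.1
      · rcases c2 with c2 | c2
        · exact c2.2.2.1 c1.1
        · exact c2.2.2.1 hq.1
  exact ⟨q, hqw, h.dichotomy hL huv hdisj hp hR hqu hqv⟩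

end Pool.Agent.Lib.MP_d36e69_co
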