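import Pool.Agent.Lib.MP_d36e69_co.Defs

/-!
# Elementary geometry of L-shapes
-/

set_option autoImplicit false

namespace Pool.Agent.Lib.MP_d36e69_co

namespace LShape

/-- Left side of the bounding box. -/
noncomputable def x0 (s : LShape) : ℝ := min s.cx s.ex
/-- Right side of the bounding box. -/
noncomputable def x1 (s : LShape) : ℝ := max s.cx s.ex
/-- Bottom side of the bounding box. -/
noncomputable def y0 (s : LShape) : ℝ := min s.cy s.ey
/-- Top side of the bounding box. -/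
noncomputable def y1 (s : LShape) : ℝ := max s.cy s.ey

theorem mem_segment_horizontal (a b y : ℝ) (p : ℝ × ℝ) :
    p ∈ segment ℝ ((a, y) : ℝ × ℝ) (b, y) ↔ p.2 = y ∧ min a b ≤ p.1 ∧ p.1 ≤ max a b := by
  rw [← Prod.image_mk_segment_left, segment_eq_uIcc]
  constructor
  · rintro ⟨x, hx, rfl⟩
    exact ⟨rfl, hx.1, hx.2⟩
  · rintro ⟨h1, h2, h3⟩
    exact ⟨p.1, ⟨h2, h3⟩, by rw [← h1]⟩

theorem mem_segment_vertical (a b x : ℝ) (p : ℝ × ℝ) :
    p ∈ segment ℝ ((x, a) : ℝ × ℝ) (x, b) ↔ p.1 = x ∧ min a b ≤ p.2 ∧ p.2 ≤ max a b := by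
  rw [← Prod.image_mk_segment_right, segment_eq_uIcc]
  constructor
  · rintro ⟨y, hy, rfl⟩
    exact ⟨rfl, hy.1, hy.2⟩
  · rintro ⟨h1, h2, h3⟩
    exact ⟨p.2, ⟨h2, h3⟩, by rw [← h1]⟩

theorem mem_carrier_iff (s : LShape) (p : ℝ × ℝ) :
    p ∈ s.carrier ↔ (p.2 = s.cy ∧ s.x0 ≤ p.1 ∧ p.1 ≤ s.x1) ∨
      (p.1 = s.cx ∧ s.y0 ≤ p.2 ∧ p.2 ≤ s.y1) := by
  unfold carrier bend hEnd vEnd x0 x1 y0 y1
  rw [Set.mem_union, mem_segment_horizontal, mem_segment_vertical]

/-- Transposition of the plane. -/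
def swap (s : LShape) : LShape := ⟨s.cy, s.cx, s.ey, s.ex, s.hy, s.hx⟩

/-- Reflection in the vertical axis. -/
def flip (s : LShape) : LShape :=
  ⟨-s.cx, s.cy, -s.ex, s.ey, fun h => s.hx (neg_injective h), s.hy⟩

/-- The horizontal endpoint of `s` touches the interior of the vertical segment of `t`. -/
def UH (s t : LShape) : Prop := t.cx = s.ex ∧ t.y0 < s.cy ∧ s.cy < t.y1

/-- The vertical endpoint of `s` touches the interior of the horizontal segment of `t`. -/
def UV (s t : LShape) : Prop := t.cy = s.ey ∧ t.x0 < s.cx ∧ s.cx < t.x1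

theorem swap_carrier (s : LShape) (p : ℝ × ℝ) : p ∈ s.swap.carrier ↔ p.swap ∈ s.carrier := by
  rw [mem_carrier_iff, mem_carrier_iff]
  exact or_comm

theorem swap_isEnd (s : LShape) (p : ℝ × ℝ) : s.swap.IsEnd p ↔ s.IsEnd p.swap := by
  unfold IsEnd hEnd vEnd swap
  simp only [Prod.ext_iff, Prod.fst_swap, Prod.snd_swap]
  tauto

theorem swap_bend (s : LShape) (p : ℝ × ℝ) : p = s.swap.bend ↔ p.swap = s.bend := by
  unfold bend swap
  simp only [Prod.ext_iff, Prod.fst_swap, Prod.snd_swap]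
  tauto

theorem flip_x0 (s : LShape) : s.flip.x0 = -s.x1 := by
  unfold x0 x1 flip
  simp only [min_neg_neg]

theorem flip_x1 (s : LShape) : s.flip.x1 = -s.x0 := by
  unfold x0 x1 flip
  simp only [max_neg_neg]

theorem flip_carrier (s : LShape) (p : ℝ × ℝ) :
    p ∈ s.flip.carrier ↔ (-p.1, p.2) ∈ s.carrier := by
  rw [mem_carrier_iff, mem_carrier_iff, flip_x0, flip_x1]
  have e1 : s.flip.cy = s.cy := rfl
  have e2 : s.flip.cx = -s.cx := rfl
  have e3 : s.flip.y0 = s.y0 := rfl
  have e4 : s.flip.y1 = s.y1 := rfl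
  rw [e1, e2, e3, e4]
  constructor
  · rintro (⟨h1, h2, h3⟩ | ⟨h1, h2, h3⟩)
    · exact Or.inl ⟨h1, by simp only; linarith, by simp only; linarith⟩
    · exact Or.inr ⟨by simp only; linarith, h2, h3⟩
  · rintro (⟨h1, h2, h3⟩ | ⟨h1, h2, h3⟩)
    · simp only at h1 h2 h3
      exact Or.inl ⟨h1, by linarith, by linarith⟩
    · simp only at h1 h2 h3
      exact Or.inr ⟨by linarith, h2, h3⟩

theorem flip_isEnd (s : LShape) (p : ℝ × ℝ) : s.flip.IsEnd p ↔ s.IsEnd (-p.1, p.2) := by
  unfold IsEnd hEnd vEnd flip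
  simp only [Prod.ext_iff]
  constructor
  · rintro (⟨h1, h2⟩ | ⟨h1, h2⟩)
    · exact Or.inl ⟨by linarith, h2⟩
    · exact Or.inr ⟨by linarith, h2⟩
  · rintro (⟨h1, h2⟩ | ⟨h1, h2⟩)
    · exact Or.inl ⟨by linarith, h2⟩
    · exact Or.inr ⟨by linarith, h2⟩

theorem flip_bend (s : LShape) (p : ℝ × ℝ) : p = s.flip.bend ↔ ((-p.1, p.2) : ℝ × ℝ) = s.bend := by
  unfold bend flip
  simp only [Prod.ext_iff]
  constructor
  · rintro ⟨h1, h2⟩
    exact ⟨by linarith, h2⟩
  · rintro ⟨h1, h2⟩
    exact ⟨by linarith, h2⟩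

end LShape

open LShape

/-- Transfer of representations along an involution of the plane. -/
theorem IsLContactRep.transfer {V : Type} {G : SimpleGraph V} {L : V → LShape}
    (h : IsLContactRep G L) (F : LShape → LShape) (φ : ℝ × ℝ → ℝ × ℝ) (hφ : ∀ p, φ (φ p) = p)
    (h1 : ∀ s p, p ∈ (F s).carrier ↔ φ p ∈ s.carrier)
    (h2 : ∀ s p, (F s).IsEnd p ↔ s.IsEnd (φ p))
    (h3 : ∀ s p, p = (F s).bend ↔ φ p = s.bend) : IsLContactRep G (fun v => F (L v)) := by
  have key : ∀ s t p, (F s).ContactAt (F t) p ↔ s.ContactAt t (φ p) := by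
    intro s t p
    unfold ContactAt TouchesAt
    simp only [h1, h2, h3, ne_eq]
  refine ⟨fun u v huv p hu hv => ?_, fun u v huv => ?_⟩
  · rw [key]
    exact h.1 u v huv (φ p) ((h1 _ _).mp hu) ((h1 _ _).mp hv)
  · rw [h.2 u v huv]
    constructor
    · rintro ⟨p, hp⟩
      exact ⟨φ p, by rw [key, hφ]; exact hp⟩
    · rintro ⟨p, hp⟩
      exact ⟨φ p, (key _ _ _).mp hp⟩

theorem IsLContactRep.swap {V : Type} {G : SimpleGraph V} {L : V → LShape}
    (h : IsLContactRep G L) : IsLContactRep G (fun v => (L v).swap) :=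
  h.transfer LShape.swap Prod.swap (fun p => Prod.swap_swap p) swap_carrier swap_isEnd swap_bend

theorem IsLContactRep.flip {V : Type} {G : SimpleGraph V} {L : V → LShape}
    (h : IsLContactRep G L) : IsLContactRep G (fun v => (L v).flip) :=
  h.transfer LShape.flip (fun p => (-p.1, p.2)) (fun p => by simp) flip_carrier flip_isEnd
    flip_bend

/-- A horizontal endpoint touches a vertical segment. -/
theorem touch_hEnd {V : Type} {G : SimpleGraph V} {L : V → LShape}
    (h : IsLContactRep G L) {u w : V} (huw : u ≠ w)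
    (ht : (L u).TouchesAt (L w) (L u).hEnd) : UH (L u) (L w) := by
  obtain ⟨-, h2, h3, h4⟩ := ht
  rw [mem_carrier_iff] at h2
  rcases h2 with ⟨h5, h6, h7⟩ | ⟨h5, h6, h7⟩
  · -- both segments horizontal: impossible
    exfalso
    simp only [hEnd] at h5 h6 h7
    have hne1 : (L u).ex ≠ (L w).ex := fun hc => h3 (Or.inl (Prod.ext hc h5))
    have hne2 : (L u).ex ≠ (L w).cx := fun hc => h4 (Prod.ext hc h5)
    have h8 : (L w).x0 < (L u).ex := by
      refine lt_of_le_of_ne h6 ?_
      unfold x0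
      rcases min_choice (L w).cx (L w).ex with hm | hm <;> rw [hm]
      · exact hne2.symm
      · exact hne1.symm
    have h9 : (L u).ex < (L w).x1 := by
      refine lt_of_le_of_ne h7 ?_
      unfold x1
      rcases max_choice (L w).cx (L w).ex with hm | hm <;> rw [hm]
      · exact hne2
      · exact hne1
    have key : ∀ x : ℝ, (L w).x0 < x → x < (L w).x1 → (L u).x0 ≤ x → x ≤ (L u).x1 →
        x ≠ (L u).ex → x ≠ (L u).cx → False := by
      intro x k1 k2 k3 k4 k5 k6
      have m1 : ((x, (L u).cy) : ℝ × ℝ) ∈ (L u).carrier := by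
        rw [mem_carrier_iff]; exact Or.inl ⟨rfl, k3, k4⟩
      have m2 : ((x, (L u).cy) : ℝ × ℝ) ∈ (L w).carrier := by
        rw [mem_carrier_iff]; exact Or.inl ⟨h5, k1.le, k2.le⟩
      rcases h.1 u w huw _ m1 m2 with hc | hc
      · rcases hc.1 with hc | hc
        · exact k5 (congrArg Prod.fst hc)
        · exact k6 (congrArg Prod.fst hc)
      · rcases hc.1 with hc | hc
        · have hx : x = (L w).ex := congrArg Prod.fst hc
          rw [hx] at k1 k2
          unfold x0 at k1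
          unfold x1 at k2
          rcases lt_max_iff.mp k2 with k | k
          · rcases min_lt_iff.mp k1 with k' | k'
            · exact lt_asymm k k'
            · exact lt_irrefl _ k'
          · exact lt_irrefl _ k
        · have hy : (L u).cy = (L w).ey := congrArg Prod.snd hc
          exact (L w).hy (by rw [← hy, h5])
    rcases lt_or_gt_of_ne (L u).hx with hlt | hgt
    · -- `ex < cx`
      have a1 : (L u).ex < min (L u).cx (L w).x1 := lt_min hlt h9
      have a2 : min (L u).cx (L w).x1 ≤ (L u).cx := min_le_left _ _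
      have a3 : min (L u).cx (L w).x1 ≤ (L w).x1 := min_le_right _ _
      have a4 : (L u).x0 ≤ (L u).ex := min_le_right _ _
      have a5 : (L u).cx ≤ (L u).x1 := le_max_left _ _
      refine key (((L u).ex + min (L u).cx (L w).x1) / 2) ?_ ?_ ?_ ?_ ?_ ?_
      · linarith
      · linarith
      · linarith
      · linarith
      · intro hc; linarith
      · intro hc; linarith
    · have a1 : max (L u).cx (L w).x0 < (L u).ex := max_lt hgt h8
      have a2 : (L u).cx ≤ max (L u).cx (L w).x0 := le_max_left _ _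
      have a3 : (L w).x0 ≤ max (L u).cx (L w).x0 := le_max_right _ _
      have a4 : (L u).x0 ≤ (L u).cx := min_le_left _ _
      have a5 : (L u).ex ≤ (L u).x1 := le_max_right _ _
      refine key (((L u).ex + max (L u).cx (L w).x0) / 2) ?_ ?_ ?_ ?_ ?_ ?_
      · linarith
      · linarith
      · linarith
      · linarith
      · intro hc; linarith
      · intro hc; linarith
  · simp only [hEnd] at h5 h6 h7
    have hne1 : (L u).cy ≠ (L w).ey := fun hc => h3 (Or.inr (Prod.ext h5 hc))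
    have hne2 : (L u).cy ≠ (L w).cy := fun hc => h4 (Prod.ext h5 hc)
    refine ⟨h5.symm, lt_of_le_of_ne h6 ?_, lt_of_le_of_ne h7 ?_⟩
    · unfold y0
      rcases min_choice (L w).cy (L w).ey with hm | hm <;> rw [hm]
      · exact hne2.symm
      · exact hne1.symm
    · unfold y1
      rcases max_choice (L w).cy (L w).ey with hm | hm <;> rw [hm]
      · exact hne2
      · exact hne1

theorem touch_vEnd {V : Type} {G : SimpleGraph V} {L : V → LShape}
    (h : IsLContactRep G L) {u w : V} (huw : u ≠ w)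
    (ht : (L u).TouchesAt (L w) (L u).vEnd) : UV (L u) (L w) := by
  refine touch_hEnd h.swap huw ?_
  obtain ⟨h1, h2, h3, h4⟩ := ht
  refine ⟨?_, ?_, ?_, ?_⟩
  · rw [swap_isEnd]; exact h1
  · rw [swap_carrier]; exact h2
  · rw [swap_isEnd]; exact h3
  · intro hc
    rw [swap_bend] at hc
    exact h4 hc

/-- Adjacent vertices touch. -/
theorem adj_touch {V : Type} {G : SimpleGraph V} {L : V → LShape}
    (h : IsLContactRep G L) {u w : V} (huw : G.Adj u w) :
    (UH (L u) (L w) ∨ UV (L u) (L w)) ∨ (UH (L w) (L u) ∨ UV (L w) (L u)) := by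
  have hne : u ≠ w := huw.ne
  obtain ⟨p, hp⟩ := (h.2 u w hne).mp huw
  rcases hp with hp | hp
  · left
    rcases hp.1 with rfl | rfl
    · exact Or.inl (touch_hEnd h hne hp)
    · exact Or.inr (touch_vEnd h hne hp)
  · right
    rcases hp.1 with rfl | rfl
    · exact Or.inl (touch_hEnd h hne.symm hp)
    · exact Or.inr (touch_vEnd h hne.symm hp)

/-- Non-adjacent vertices have disjoint shapes. -/
theorem not_adj_disjoint {V : Type} {G : SimpleGraph V} {L : V → LShape}
    (h : IsLContactRep G L) {u w : V} (hne : u ≠ w) (huw : ¬ G.Adj u w) (p : ℝ × ℝ)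
    (h1 : p ∈ (L u).carrier) (h2 : p ∈ (L w).carrier) : False :=
  huw ((h.2 u w hne).mpr ⟨p, h.1 u w hne p h1 h2⟩)

theorem UH_hEnd {s t : LShape} (h : UH s t) :
    s.hEnd ∈ t.carrier ∧ ¬ t.IsEnd s.hEnd ∧ s.hEnd ≠ t.bend := by
  obtain ⟨h1, h2, h3⟩ := h
  unfold y0 at h2
  unfold y1 at h3
  refine ⟨?_, ?_, ?_⟩
  · rw [mem_carrier_iff]
    exact Or.inr ⟨h1.symm, h2.le, h3.le⟩
  · rintro (hc | hc)
    · have e1 : s.ex = t.ex := congrArg Prod.fst hc
      exact t.hx (by rw [← e1, h1])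
    · have e2 : s.cy = t.ey := congrArg Prod.snd hc
      rw [e2] at h2 h3
      rcases lt_max_iff.mp h3 with k | k
      · rcases min_lt_iff.mp h2 with k' | k'
        · exact lt_asymm k k'
        · exact lt_irrefl _ k'
      · exact lt_irrefl _ k
  · intro hc
    have e2 : s.cy = t.cy := congrArg Prod.snd hc
    rw [e2] at h2 h3
    rcases lt_max_iff.mp h3 with k | k
    · exact lt_irrefl _ k
    · rcases min_lt_iff.mp h2 with k' | k'
      · exact lt_irrefl _ k'
      · exact lt_asymm k k'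

theorem UH_unique {V : Type} {G : SimpleGraph V} {L : V → LShape}
    (h : IsLContactRep G L) {u w w' : V} (h1 : UH (L u) (L w)) (h2 : UH (L u) (L w')) :
    w = w' := by
  by_contra hne
  obtain ⟨a1, a2, a3⟩ := UH_hEnd h1
  obtain ⟨b1, b2, b3⟩ := UH_hEnd h2
  rcases h.1 w w' hne _ a1 b1 with hc | hc
  · exact a2 hc.1
  · exact b2 hc.1

theorem UV_unique {V : Type} {G : SimpleGraph V} {L : V → LShape}
    (h : IsLContactRep G L) {u w w' : V} (h1 : UV (L u) (L w)) (h2 : UV (L u) (L w')) :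
    w = w' :=
  UH_unique h.swap (u := u) h1 h2

end Pool.Agent.Lib.MP_d36e69_co
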